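import Pool.Agent.Helper2.QuantFinal

set_option autoImplicit false

namespace Pool.Agent.Results.MP_773b62_nt.LiarRate

/-- There are arbitrarily large composite `n` with `a ^ (n - 1) ≡ 1 (mod n)` for all `a` coprime to
`n` (Carmichael numbers) for which the number `F(n)` of Fermat liars satisfies
`F(n) ≥ n (1 - exp (-exp ((log log n)^(1/6))))`. -/
theorem result (N : ℕ) :
    ∃ n : ℕ, N < n ∧ 1 < n ∧ ¬ n.Prime ∧ (∀ a : ℕ, a.Coprime n → a ^ (n - 1) ≡ 1 [MOD n]) ∧
      (n : ℝ) * (1 - Real.exp (-Real.exp (Real.log (Real.log n) ^ (1 / 6 : ℝ)))) ≤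
        (((Finset.range n).filter (fun a => a ^ (n - 1) ≡ 1 [MOD n])).card : ℝ) := by
  have hev : ∀ᶠ x : ℝ in Filter.atTop, 4 * 10 ^ 12 * Real.log x ^ 5 ≤ x := by
    have h := (Real.isLittleO_pow_log_id_atTop (n := 5)).bound
      (show (0 : ℝ) < 1 / (4 * 10 ^ 12) by norm_num)
    filter_upwards [h, Filter.eventually_ge_atTop (1 : ℝ)] with x hx hx1
    rw [Real.norm_of_nonneg (by have := Real.log_nonneg hx1; positivity), id,
      Real.norm_of_nonneg (by linarith)] at hx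
    linarith
  have hev' := tendsto_natCast_atTop_atTop.eventually hev
  obtain ⟨s₀, hs₀⟩ := Filter.eventually_atTop.1 hev'
  set s : ℕ := max (max s₀ N) (10 ^ 6) with hs
  have h1 : s₀ ≤ s := (le_max_left _ _).trans (le_max_left _ _)
  have h2 : N ≤ s := (le_max_right _ _).trans (le_max_left _ _)
  have h3 : 10 ^ 6 ≤ s := le_max_right _ _
  obtain ⟨n, hn1, hn2, hn3, hn4, hn5⟩ := Pool.Agent.Helper2.quant_liars s h3 (hs₀ s h1)
  refine ⟨n, by omega, by omega, hn2, hn3, le_trans ?_ hn5⟩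
  refine mul_le_mul_of_nonneg_left ?_ (Nat.cast_nonneg n)
  have hll : 0 ≤ Real.log (Real.log n) := by
    refine Real.log_nonneg ?_
    have h4 : (10 : ℝ) ^ 6 ≤ n := by exact_mod_cast (by omega : 10 ^ 6 ≤ n)
    rw [Real.le_log_iff_exp_le (by linarith)]
    linarith [Real.exp_one_lt_d9]
  have h5 : Real.log (Real.log n) ^ (1 / 6 : ℝ) ≤ (s : ℝ) ^ 2 := by
    calc Real.log (Real.log n) ^ (1 / 6 : ℝ) ≤ ((s : ℝ) ^ 12) ^ (1 / 6 : ℝ) :=
          Real.rpow_le_rpow hll hn4 (by norm_num)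
      _ = (s : ℝ) ^ 2 := by
          rw [← Real.rpow_natCast, ← Real.rpow_mul (Nat.cast_nonneg s)]
          norm_num
  have h6 : Real.exp (-Real.exp ((s : ℝ) ^ 2)) ≤
      Real.exp (-Real.exp (Real.log (Real.log n) ^ (1 / 6 : ℝ))) := by
    refine Real.exp_le_exp.2 (neg_le_neg (Real.exp_le_exp.2 h5))
  linarith

end Pool.Agent.Results.MP_773b62_nt.LiarRate
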